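import Pool.Agent.Helper80.MM.Stm
import Pool.Graph.R_seed8.H340R2.LW

/-! The sequences of new values (package SEQ). -/

set_option autoImplicit false

namespace Pool.Agent.Helper78.MM

open Pool.Agent.Helper35.EM Pool.Agent.Helper56.SA Pool.Agent.Helper56.EM Pool.Agent.Helper56.NL
  Pool.Agent.Helper56.HS Pool.Agent.Helper80.MM Module Submodule Set ComplexConjugate MeasureTheory

theorem pi_not : (Real.pi : ℂ) ∉ M.closure ∅ := fun h =>
  Pool.Agent.H340R2.LW.transcendental_pi_complex (mem_cl_empty.1 h)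

/-- the reals in the closure of a countable set are countable -/
theorem count_real {A : Set ℂ} (hA : A.Countable) : {y : ℝ | (y : ℂ) ∈ M.closure A}.Countable :=
  (countable_closure hA).preimage_of_injOn Complex.ofReal_injective.injOn

theorem ae_real {A : Set ℂ} (hA : A.Countable) : ∀ᵐ y : ℝ, (y : ℂ) ∉ M.closure A := by
  have h := (count_real hA).measure_zero volume
  rw [ae_iff]
  simpa only [not_not] using h

theorem exists_liouville {A : Set ℂ} (hA : A.Countable) :
    ∃ L : ℝ, Liouville L ∧ (L : ℂ) ∉ M.closure A := by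
  have h1 : ∀ᶠ y : ℝ in residual ℝ, ∀ x ∈ {y : ℝ | (y : ℂ) ∈ M.closure A}, y ≠ x := by
    rw [eventually_countable_ball (count_real hA)]
    intro x _
    exact residual_of_dense_open isOpen_compl_singleton (dense_compl_singleton x)
  obtain ⟨L, h2, h3⟩ := (dense_of_mem_residual (eventually_residual_liouville.and h1)).nonempty
  exact ⟨L, h2, fun h => h3 L h rfl⟩

theorem exists_pos {A : Set ℂ} (hA : A.Countable) : ∃ y : ℝ, 0 < y ∧ (y : ℂ) ∉ M.closure A := by
  obtain ⟨y, hy⟩ := (ae_real hA).exists
  have h0 : y ≠ 0 := by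
    rintro rfl
    exact hy (by simpa using cl_zero A)
  refine ⟨|y|, abs_pos.2 h0, fun h => hy ?_⟩
  rcases abs_choice y with h1 | h1
  · rwa [h1] at h
  · rw [h1] at h
    have h2 := cl_smul (-1) h
    have h3 : ((-1 : ℚ) • ((-y : ℝ) : ℂ)) = (y : ℂ) := by
      rw [Rat.smul_def]; push_cast; ring
    rwa [h3] at h2

/-- free positive reals over a countable set -/
theorem exists_freeS {S : Set ℂ} (hS : S.Countable) (hreal : ∀ x ∈ S, conj x = x) :
    ∃ t : ℕ → ℝ, FreeS S (fun k => (t k : ℂ)) := by
  have h : ∀ A : Set ℂ, A.Countable → ∃ y : ℝ, 0 < y ∧ (y : ℂ) ∉ M.closure A :=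
    fun A hA => exists_pos hA
  choose! y hy1 hy2 using h
  let A : ℕ → Set ℂ := fun n => Nat.rec S (fun _ A => insert ((y A : ℝ) : ℂ) A) n
  have hA1 : ∀ n, A (n + 1) = insert ((y (A n) : ℝ) : ℂ) (A n) := fun n => rfl
  have hAc : ∀ n, (A n).Countable := by
    intro n
    induction n with
    | zero => exact hS
    | succ n ih => rw [hA1]; exact ih.insert _
  have hAe : ∀ n, A n = S ∪ (fun k => ((y (A k) : ℝ) : ℂ)) '' Iio n := by
    intro n
    induction n with
    | zero =>
      have : (Iio 0 : Set ℕ) = ∅ := by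
        ext x; simp
      rw [this, image_empty, union_empty]
      rfl
    | succ n ih =>
      have e : (Iio (n + 1) : Set ℕ) = insert n (Iio n) := by
        ext k
        simp only [mem_Iio, mem_insert_iff]
        omega
      rw [hA1, e, image_insert_eq, union_insert, ← ih]
  refine ⟨fun n => y (A n), ⟨fun n => ?_, fun n => ⟨_, hy1 _ (hAc n), rfl⟩, hreal, hS⟩⟩
  rw [← hAe n]
  exact hy2 _ (hAc n)

/-- fewer variables -/
theorem MR.restrict {D : ℕ} {N M : ℕ} (h : N ≤ M) {s : ℕ → ℝ} (hs : MR D (fun i : Fin M => s i)) :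
    MR D (fun i : Fin N => s i) := by
  obtain ⟨C, hC⟩ := hs
  refine ⟨C, fun H hH P hP hD hc => ?_⟩
  have hinj : Function.Injective (Fin.castLE h) := Fin.castLE_injective h
  have h1 := hC H hH (MvPolynomial.rename (Fin.castLE h) P)
    (by
      intro h0
      apply hP
      exact (MvPolynomial.rename_injective _ hinj) (by rw [h0, map_zero]))
    ((MvPolynomial.totalDegree_rename_le _ _).trans hD)
    (by
      intro m
      by_cases hm : ∃ u : Fin N →₀ ℕ, u.mapDomain (Fin.castLE h) = m
      · obtain ⟨u, rfl⟩ := hm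
        rw [MvPolynomial.coeff_rename_mapDomain _ hinj]
        exact hc u
      · rw [MvPolynomial.coeff_rename_eq_zero _ _ _ (fun u hu => absurd ⟨u, hu⟩ hm)]
        simp)
  rw [MvPolynomial.aeval_rename] at h1
  exact h1

/-- good beginnings -/
def Q (D n : ℕ) (f : ℕ → ℝ) : Prop :=
  MR D (fun i : Fin n => f i) ∧ ∀ k < n, (f k : ℂ) ∉ M.closure ((fun k => (f k : ℂ)) '' Iio k)

theorem Q.step (hM : S_METR) (hS : S_STEP) {D n : ℕ} {f : ℕ → ℝ} (h : Q D n f) :
    ∃ g, Q D (n + 1) g ∧ ∀ k < n, g k = f k := by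
  obtain ⟨y, hy1, hy2⟩ := ((hS hM D n _ h.1).and
    (ae_real (A := (fun k => (f k : ℂ)) '' Iio n) ((to_countable _).image _))).exists
  have hlt : ∀ k < n, Function.update f n y k = f k := fun k hk =>
    Function.update_of_ne hk.ne y f
  refine ⟨Function.update f n y, ⟨?_, ?_⟩, hlt⟩
  · have e : (fun i : Fin (n + 1) => Function.update f n y i) =
        Fin.snoc (α := fun _ => ℝ) (fun i : Fin n => f i) y := by
      funext i
      refine Fin.lastCases ?_ (fun j => ?_) i
      · simp
      · rw [Fin.snoc_castSucc]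
        exact hlt j j.2
    rw [e]
    exact hy1
  · intro k hk
    have e : (fun j => (Function.update f n y j : ℂ)) '' Iio k = (fun j => (f j : ℂ)) '' Iio k := by
      apply image_congr
      intro j hj
      have : j < k := hj
      show ((Function.update f n y j : ℝ) : ℂ) = _
      rw [hlt j (by omega)]
    rw [e]
    rcases Nat.lt_succ_iff_lt_or_eq.1 hk with h1 | rfl
    · rw [hlt k h1]
      exact h.2 k h1
    · rw [Function.update_self]
      exact hy2

theorem seq : S_SEQ := by
  intro hM hP hS hF D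
  obtain ⟨L, hL1, hL2⟩ := exists_liouville (A := {(Real.pi : ℂ)}) (countable_singleton _)
  have hL0 : L ≠ 0 := by
    rintro rfl
    exact hL2 (by simpa using cl_zero _)
  obtain ⟨u, hu1, hu2⟩ := ((hF hM hP D L hL0).and
    (ae_real (A := {(L : ℂ), (Real.pi : ℂ)}) (to_countable _))).exists
  have hu0 : u ≠ 0 := by
    rintro rfl
    exact hu2 (by simpa using cl_zero _)
  have hu0' : (u : ℂ) ≠ 0 := by exact_mod_cast hu0
  set f0 : ℕ → ℝ := fun k => if k = 0 then Real.pi else if k = 1 then u else L * u ^ (D + 1) with hf0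
  have e0 : f0 0 = Real.pi := by simp [hf0]
  have e1 : f0 1 = u := by simp [hf0]
  have e2 : f0 2 = L * u ^ (D + 1) := by simp [hf0]
  have hQ0 : Q D 3 f0 := by
    refine ⟨?_, ?_⟩
    · have e : (fun i : Fin 3 => f0 i) = ![Real.pi, u, L * u ^ (D + 1)] := by
        funext i
        fin_cases i
        · exact e0
        · exact e1
        · exact e2
      rw [e]
      exact hu1
    · intro k hk
      have hk' : k = 0 ∨ k = 1 ∨ k = 2 := by omega
      rcases hk' with rfl | rfl | rfl
      · have : (Iio 0 : Set ℕ) = ∅ := by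
          ext x; simp
        rw [this, image_empty, e0]
        exact pi_not
      · have : (Iio 1 : Set ℕ) = {0} := by
          ext x; simp
        rw [this, image_singleton, e0, e1]
        exact fun h => hu2 (cl_mono (subset_insert _ _) h)
      · have : (Iio 2 : Set ℕ) = {1, 0} := by
          ext x
          simp only [mem_Iio, mem_insert_iff, mem_singleton_iff]
          omega
        rw [this, image_insert_eq, image_singleton, e0, e1, e2]
        intro h
        have h1 : (L : ℂ) ∈ M.closure {(u : ℂ), (Real.pi : ℂ)} := by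
          have h2 : (L : ℂ) = ((L * u ^ (D + 1) : ℝ) : ℂ) / (u : ℂ) ^ (D + 1) := by
            push_cast
            field_simp
          rw [h2]
          exact cl_div h (cl_pow _ (cl_self (mem_insert _ _)))
        exact hu2 (cl_exch h1 hL2)
  have hstep : ∀ (n : ℕ) (f : ℕ → ℝ), Q D n f → ∃ g, Q D (n + 1) g ∧ ∀ k < n, g k = f k :=
    fun n f h => h.step hM hS
  choose! nx hnx1 hnx2 using hstep
  let F : ℕ → ℕ → ℝ := fun n => Nat.rec f0 (fun n f => nx (n + 3) f) n
  have hF1 : ∀ n, F (n + 1) = nx (n + 3) (F n) := fun n => rfl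
  have hF0 : F 0 = f0 := rfl
  have hFQ : ∀ n, Q D (n + 3) (F n) := by
    intro n
    induction n with
    | zero => exact hQ0
    | succ n ih => rw [hF1]; exact hnx1 _ _ ih
  have hFs : ∀ n k, k < n + 3 → F (n + 1) k = F n k := fun n k hk => by
    rw [hF1]; exact hnx2 _ _ (hFQ n) k hk
  have hFm : ∀ n m, n ≤ m → ∀ k < n + 3, F m k = F n k := by
    intro n m hnm
    induction m, hnm using Nat.le_induction with
    | base => exact fun k _ => rfl
    | succ m hm ih =>
      intro k hk
      rw [hFs m k (by omega), ih k hk]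
  have hs : ∀ n k, k < n + 3 → F k k = F n k := by
    intro n k hk
    rcases le_total k n with h | h
    · exact (hFm k n h k (by omega)).symm
    · exact hFm n k h k hk
  clear_value F
  obtain ⟨s, hsdef⟩ : ∃ s : ℕ → ℝ, ∀ k, s k = F k k := ⟨fun k => F k k, fun k => rfl⟩
  replace hs : ∀ n k, k < n + 3 → s k = F n k := fun n k hk => (hsdef k).trans (hs n k hk)
  have hsr : ∀ x ∈ (range (fun k : ℕ => ((s k : ℝ) : ℂ))), conj x = x := by
    rintro _ ⟨n, rfl⟩
    exact Complex.conj_ofReal _
  obtain ⟨t, ht⟩ := exists_freeS (countable_range (fun k : ℕ => ((s k : ℝ) : ℂ))) hsr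
  refine ⟨s, t, ⟨?_, ?_, ⟨L, hL1, ?_⟩, ?_, ?_, ht⟩⟩
  · exact (hs 0 0 (by omega)).trans (by rw [hF0]; exact e0)
  · rw [show s 1 = u from (hs 0 1 (by omega)).trans (by rw [hF0]; exact e1)]
    exact hu0
  · rw [show s 1 = u from (hs 0 1 (by omega)).trans (by rw [hF0]; exact e1)]
    exact (hs 0 2 (by omega)).trans (by rw [hF0]; exact e2)
  · intro n
    have h1 := (hFQ n).2 n (by omega)
    rw [← hs n n (by omega)] at h1
    have e : (fun k => (s k : ℂ)) '' Iio n = (fun k => (F n k : ℂ)) '' Iio n := by
      apply image_congr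
      intro k hk
      have : k < n := hk
      show ((s k : ℝ) : ℂ) = _
      rw [hs n k (by omega)]
    rw [e]
    exact h1
  · intro N
    have h1 := (hFQ N).1
    have e : (fun i : Fin (N + 3) => F N i) = fun i : Fin (N + 3) => s i := by
      funext i
      exact (hs N i i.2).symm
    rw [e] at h1
    exact MR.restrict (by omega) h1

end Pool.Agent.Helper78.MM
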